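import Pool.Agent.H10.EC.Last

/-!
# Strictly outer actions all of whose cocycle perturbations have many common fixed points

Let `G` be an infinite discrete group (for instance the amenable group `ℤ`) and `K` an infinite set.
There are a II₁ factor `M` and a strictly outer action `α` of `G` on `M` such that for any `K` many
1-cocycles the perturbed actions `Ad v ∘ α` have a II₁ factor of common fixed points, which is
generated by a copy of the group of the finitely supported permutations of `K` whose elements
`σ ≠ 1` have trace zero. So no cocycle perturbation is ergodic, and not even `K` many of them are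
jointly ergodic. `M` is the von Neumann algebra of the group of the finitely supported permutations
of the disjoint union of `G` and the power set of `G ⊕ K`.
-/

set_option autoImplicit false

namespace Pool.Agent.Results.MP_418a80_an.CommonFixedPoints

open Pool.Agent.H95R3.NS (FP)
open Pool.Agent.H95R3.NS.Pub Pool.Agent.H10.EC

/-- For every infinite discrete group `G` and every infinite set `K` there are a II₁ factor `M` with
a trace vector `Ω` and a strictly outer action `α` of `G` on `M` such that:
* no cocycle perturbation of `α` is ergodic;
* for any family of 1-cocycles `v k`, `k ∈ K`, there is a copy of the group of the finitely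
  supported permutations of `K` which generates a II₁ factor of common fixed points of all the
  actions `Ad (v k) ∘ α`;
* for any family of elements `y i` of `M`, `i ∈ G × K`, there is such a copy, generating a II₁
  factor whose elements are fixed by `α` and commute with all `y i`. -/
theorem result (G K : Type) [Group G] [Infinite G] [Infinite K] :
    ∃ (H : Type) (_ : NormedAddCommGroup H) (_ : InnerProductSpace ℂ H) (_ : CompleteSpace H)
      (M : Set (Op H)) (α : G → Op H → Op H) (Ω : H),
      IsIIOneFactor M ∧ IsAction M α ∧ StrictlyOuter M α ∧ TraceVector M Ω ∧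
      (∀ v : G → Op H, IsCocycle M α v → ¬ ErgodicPerturbation M α v) ∧
      (∀ v : K → G → Op H, (∀ k, IsCocycle M α (v k)) →
        ∃ w : FP K → Op H, Copy M Ω w ∧
          ∀ x ∈ vN (Set.range w), ∀ k g, v k g * α g x * star (v k g) = x) ∧
      (∀ y : G × K → Op H, (∀ i, y i ∈ M) →
        ∃ w : FP K → Op H, Copy M Ω w ∧
          ∀ x ∈ vN (Set.range w), (∀ g, α g x = x) ∧ ∀ i, x * y i = y i * x) := by
  obtain ⟨H, i1, i2, i3, M, α, Ω, h1, h2, h3, h4, h5⟩ := main G K
  have h6 : ∀ v : K → G → Op H, (∀ k, IsCocycle M α (v k)) →
      ∃ w : FP K → Op H, Copy M Ω w ∧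
        ∀ x ∈ vN (Set.range w), ∀ k g, v k g * α g x * star (v k g) = x := by
    intro v hv
    obtain ⟨w, hw, h⟩ := h5 (fun i => v i.2 i.1) (fun i => (hv i.2).mem i.1)
    refine ⟨w, hw, fun x hx k g => ?_⟩
    rw [(h x hx).1 g, ← (h x hx).2 (g, k), mul_assoc, (hv k).mul_star g, mul_one]
  refine ⟨H, i1, i2, i3, M, α, Ω, h1, h2, h3, h4, fun v hv he => ?_, h6, h5⟩
  obtain ⟨w, hw, h⟩ := h6 (fun _ => v) (fun _ => hv)
  obtain ⟨k⟩ : Nonempty K := inferInstance
  obtain ⟨x, hx, hl⟩ := hw.factor.infinite
  have hs : ∀ i, IsScalar (x i) := fun i => he _ (hw.sub (hx i)) fun g => h _ (hx i) k g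
  exact no_scalar x hl hs

end Pool.Agent.Results.MP_418a80_an.CommonFixedPoints
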